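import Pool.Agent.Y393.RS.All

/-!
# List total colouring of all dense random graphs with independent edges

The list total colouring conjecture holds with high probability for every random graph with
independent edges such that every vertex whose expected degree is close to the maximum has at least
`c n` uncertain edges. The bound is uniform over all such random graphs: block models, random
subgraphs of any graph of linear maximum degree, randomly perturbed graphs. The starting result
`AlmostAllGraphs` is the case in which all edge probabilities are `1/2`.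

Project of helper393 with helpers 891, 961, 232, 125, 333, 256. The theorems on list edge colourings and
(p,1)-total labellings of graphs with few vertices of large degree are those of the project of
helper162 in the starting repository.
-/

set_option autoImplicit false

namespace Pool.Agent.Results.MP_16dc44_co.RandomGraphs

/-- Edge probabilities: `q e` is the probability that the pair `e` is an edge; all pairs are
independent. `prob q P` is the probability that the random graph has the property `P`. -/
noncomputable def prob {n : ℕ} (q : Sym2 (Fin n) → ℝ) (P : SimpleGraph (Fin n) → Prop) : ℝ := by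
  classical exact ∑ G : SimpleGraph (Fin n), if P G then
    (∏ e : {e : Sym2 (Fin n) // ¬ e.IsDiag}, if e.1 ∈ G.edgeSet then q e.1 else 1 - q e.1) else 0

/-- The expected degree of the vertex `v`. -/
noncomputable def expectedDegree {n : ℕ} (q : Sym2 (Fin n) → ℝ) (v : Fin n) : ℝ :=
  ∑ w ∈ Finset.univ.erase v, q s(v, w)

/-- The uncertainty at the vertex `v`: the sum of `min (q, 1 - q)` over all pairs at `v`. -/
noncomputable def uncertainty {n : ℕ} (q : Sym2 (Fin n) → ℝ) (v : Fin n) : ℝ :=
  ∑ w ∈ Finset.univ.erase v, min (q s(v, w)) (1 - q s(v, w))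

/-- The degree of `v` in `G`. -/
noncomputable def deg {n : ℕ} (G : SimpleGraph (Fin n)) (v : Fin n) : ℝ :=
  ((G.neighborSet v).ncard : ℝ)

/-- `c` is a proper total colouring of `G`. -/
def IsTotal {V : Type} (G : SimpleGraph V) {K : Type} (c : V ⊕ G.edgeSet → K) : Prop :=
  (∀ u v : V, G.Adj u v → c (Sum.inl u) ≠ c (Sum.inl v)) ∧
  (∀ e f : G.edgeSet, e ≠ f → (∃ v : V, v ∈ (e : Sym2 V) ∧ v ∈ (f : Sym2 V)) →
    c (Sum.inr e) ≠ c (Sum.inr f)) ∧
  (∀ (v : V) (e : G.edgeSet), v ∈ (e : Sym2 V) → c (Sum.inl v) ≠ c (Sum.inr e))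

/-- The list total colouring conjecture for the graph `G`: if there is a proper total colouring
with `k` colours, then there is one from all lists of at least `k` colours. -/
def ListTotal {V : Type} (G : SimpleGraph V) : Prop :=
  ∀ k : ℕ, (∃ c : V ⊕ G.edgeSet → Fin k, IsTotal G c) →
    ∀ L : V ⊕ G.edgeSet → Finset ℕ, (∀ x, k ≤ (L x).card) →
      ∃ c : V ⊕ G.edgeSet → ℕ, (∀ x, c x ∈ L x) ∧ IsTotal G c

/-- For all `c > 0` and `ε > 0` and all large `n`:

(1) For every random graph on `n` vertices with independent edges in which every vertex has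
uncertainty at least `c n`, or expected degree at least `c n` below the largest one, the list
total colouring conjecture holds with probability at least `1 - ε`.

(2) Let `F ≤ B` be graphs on `n` vertices such that every vertex `v` satisfies
`deg B v - deg F v ≥ c n`, or `deg F v + deg B v ≤ max (deg F + deg B) - c n`. All but an
`ε`-fraction of the graphs `G` with `F ≤ G ≤ B` satisfy the list total colouring conjecture.

(3) Let `B` be a graph on `n` vertices with maximum degree at least `c n`. All but an `ε`-fraction
of the spanning subgraphs of `B` satisfy the list total colouring conjecture. -/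
theorem result :
    (∀ c ε : ℝ, 0 < c → 0 < ε → ∃ N : ℕ, ∀ n : ℕ, N ≤ n → ∀ q : Sym2 (Fin n) → ℝ,
      (∀ e, 0 ≤ q e ∧ q e ≤ 1) →
      (∀ v, c * n ≤ uncertainty q v ∨
        ∃ u, expectedDegree q v + c * n ≤ expectedDegree q u) →
      1 - ε ≤ prob q (fun G => ListTotal G)) ∧
    (∀ c ε : ℝ, 0 < c → 0 < ε → ∃ N : ℕ, ∀ n : ℕ, N ≤ n → ∀ F B : SimpleGraph (Fin n), F ≤ B →
      (∀ v, deg F v + c * n ≤ deg B v ∨ ∃ u, deg F v + deg B v + c * n ≤ deg F u + deg B u) →
      ({G : SimpleGraph (Fin n) | F ≤ G ∧ G ≤ B ∧ ¬ ListTotal G}.ncard : ℝ) ≤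
        ε * {G : SimpleGraph (Fin n) | F ≤ G ∧ G ≤ B}.ncard) ∧
    ∀ c ε : ℝ, 0 < c → 0 < ε → ∃ N : ℕ, ∀ n : ℕ, N ≤ n → ∀ B : SimpleGraph (Fin n),
      (∃ v, c * n ≤ deg B v) →
      ({G : SimpleGraph (Fin n) | G ≤ B ∧ ¬ ListTotal G}.ncard : ℝ) ≤
        ε * {G : SimpleGraph (Fin n) | G ≤ B}.ncard :=
  ⟨fun c ε hc hε => (Pool.Agent.Y393.RS.typical_ltc.1 c ε hc hε).imp
      fun _ h n hn q h1 h2 => h n hn q ⟨h1, h2⟩,
    Pool.Agent.Y393.RS.typical_ltc.2.1, Pool.Agent.Y393.RS.typical_ltc.2.2⟩

end Pool.Agent.Results.MP_16dc44_co.RandomGraphs
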